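import Mathlib

set_option autoImplicit false
set_option linter.unusedSectionVars false

/-! Lattice ordered groups and ordered vector spaces: disjointness, truncation. -/

namespace Pool.Agent.R546.SP

section grp

variable {E : Type*} [AddCommGroup E] [Lattice E] [IsOrderedAddMonoid E]

theorem inf_add_le' {a b c : E} (ha : 0 ≤ a) (hb : 0 ≤ b) (hc : 0 ≤ c) :
    a ⊓ (b + c) ≤ a ⊓ b + a ⊓ c := by
  rw [inf_add, add_inf, add_inf]
  refine le_inf (le_inf ?_ ?_) (le_inf ?_ ?_)
  · exact inf_le_left.trans (le_add_of_nonneg_right ha)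
  · exact inf_le_left.trans (le_add_of_nonneg_right hc)
  · exact inf_le_left.trans (le_add_of_nonneg_left hb)
  · exact inf_le_right

/-- disjointness of nonnegative elements passes to smaller elements -/
theorem disj_mono {a b a' b' : E} (ha : 0 ≤ a) (hb : 0 ≤ b) (ha' : a ≤ a') (hb' : b ≤ b')
    (h : a' ⊓ b' = 0) : a ⊓ b = 0 :=
  le_antisymm (h ▸ inf_le_inf ha' hb') (le_inf ha hb)

theorem disj_add {a b c : E} (ha : 0 ≤ a) (hb : 0 ≤ b) (hc : 0 ≤ c) (h1 : a ⊓ b = 0)
    (h2 : a ⊓ c = 0) : a ⊓ (b + c) = 0 := by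
  refine le_antisymm ((inf_add_le' ha hb hc).trans ?_) (le_inf ha (add_nonneg hb hc))
  rw [h1, h2, add_zero]

theorem disj_sum {ι : Type*} {a : E} (ha : 0 ≤ a) {b : ι → E} (s : Finset ι)
    (hb : ∀ i ∈ s, 0 ≤ b i) (h : ∀ i ∈ s, a ⊓ b i = 0) : a ⊓ ∑ i ∈ s, b i = 0 := by
  classical
  induction s using Finset.induction_on with
  | empty => simpa using ha
  | insert i s hi ih =>
    rw [Finset.sum_insert hi]
    refine disj_add ha (hb i (Finset.mem_insert_self i s))
      (Finset.sum_nonneg fun j hj => hb j (Finset.mem_insert_of_mem hj))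
      (h i (Finset.mem_insert_self i s)) (ih (fun j hj => hb j (Finset.mem_insert_of_mem hj))
      fun j hj => h j (Finset.mem_insert_of_mem hj))

/-- disjointness of signed elements -/
theorem abs_disj_add {a b c : E} (h1 : |a| ⊓ |b| = 0) (h2 : |a| ⊓ |c| = 0) : |a| ⊓ |b + c| = 0 :=
  disj_mono (abs_nonneg a) (abs_nonneg _) le_rfl (abs_add_le b c)
    (disj_add (abs_nonneg a) (abs_nonneg b) (abs_nonneg c) h1 h2)

theorem abs_disj_sum {ι : Type*} {a : E} {b : ι → E} (s : Finset ι)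
    (h : ∀ i ∈ s, |a| ⊓ |b i| = 0) : |a| ⊓ |∑ i ∈ s, b i| = 0 := by
  classical
  induction s using Finset.induction_on with
  | empty => simp
  | insert i s hi ih =>
    rw [Finset.sum_insert hi]
    exact abs_disj_add (h i (Finset.mem_insert_self i s))
      (ih fun j hj => h j (Finset.mem_insert_of_mem hj))

/-- the truncation of `f` at `e` and `- e` -/
def tr (e f : E) : E := (f ⊓ e) ⊔ (-e)

theorem abs_tr_le {e f : E} (he : 0 ≤ e) : |tr e f| ≤ e := by
  rw [abs_le']
  constructor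
  · exact sup_le inf_le_right ((neg_nonpos.2 he).trans he)
  · rw [neg_le]
    exact le_sup_right

theorem abs_tr_le' {e f : E} (he : 0 ≤ e) : |tr e f| ≤ |f| := by
  rw [abs_le']
  constructor
  · exact sup_le (inf_le_left.trans (le_abs_self f)) ((neg_nonpos.2 he).trans (abs_nonneg f))
  · rw [neg_le]
    refine le_trans (le_inf ?_ ?_) le_sup_left
    · exact neg_le.1 (neg_le_abs f)
    · exact (neg_nonpos.2 (abs_nonneg f)).trans he

/-- Riesz decomposition -/
theorem abs_sub_tr_le {u v f : E} (hv : 0 ≤ v) (h : |f| ≤ u + v) :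
    |f - tr u f| ≤ v := by
  obtain ⟨h1, h2⟩ := abs_le'.1 h
  rw [abs_le']
  constructor
  · rw [sub_le_iff_le_add]
    have h3 : f ≤ v + f ⊓ u := by
      rw [add_inf]
      refine le_inf (le_add_of_nonneg_left hv) ?_
      rw [add_comm]
      exact h1
    refine h3.trans ?_
    gcongr
    exact le_sup_left
  · rw [neg_sub, sub_le_iff_le_add]
    refine sup_le (inf_le_left.trans (le_add_of_nonneg_left hv)) ?_
    have h3 : -(u + v) ≤ f := neg_le.1 h2
    calc -u = v + -(u + v) := by abel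
      _ ≤ v + f := by gcongr

theorem pos_sub_le {x y : E} : (x - y) ⊔ 0 ≤ (x ⊔ 0 - y) ⊔ 0 := by
  refine sup_le_sup_right ?_ 0
  gcongr
  exact le_sup_left

theorem pos_pos_sub {x y : E} (hy : 0 ≤ y) : (x ⊔ 0 - y) ⊔ 0 = (x - y) ⊔ 0 := by
  rw [sup_sub, zero_sub, sup_assoc, sup_eq_right.2 (neg_nonpos.2 hy)]

theorem pos_disj (x : E) : (x ⊔ 0) ⊓ ((-x) ⊔ 0) = 0 := by
  have := posPart_inf_negPart_eq_zero x
  simpa [posPart_def, negPart_def] using this

theorem pos_disj' (x y : E) : ((x - y) ⊔ 0) ⊓ ((y - x) ⊔ 0) = 0 := by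
  have := pos_disj (x - y)
  rwa [neg_sub] at this

theorem sub_pos_neg (x : E) : (x ⊔ 0) - ((-x) ⊔ 0) = x := by
  have := posPart_sub_negPart x
  simpa [posPart_def, negPart_def] using this

/-- elements below `v` and disjoint from `w` are below `(v - w)⁺` -/
theorem le_of_disj {g v w : E} (hgv : g ≤ v) (h : g ⊓ w = 0) : g ≤ (v - w) ⊔ 0 := by
  have h1 : g + w = g ⊔ w := by rw [← inf_add_sup g w, h, zero_add]
  have h2 : g + w ≤ (v - w) ⊔ 0 + w := by
    rw [h1, sup_add, sub_add_cancel, zero_add]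
    exact sup_le_sup_right hgv w
  exact (add_le_add_iff_right w).1 h2

theorem sub_inf_eq (v w : E) : v - w ⊓ v = (v - w) ⊔ 0 := by
  rw [sub_eq_add_neg, neg_inf, add_sup, add_neg_cancel, ← sub_eq_add_neg]

end grp

section module

variable {E : Type*} [AddCommGroup E] [Lattice E] [IsOrderedAddMonoid E] [Module ℝ E]
  [PosSMulMono ℝ E]

theorem smul_le {a b : E} {r : ℝ} (hr : 0 ≤ r) (h : a ≤ b) : r • a ≤ r • b :=
  smul_le_smul_of_nonneg_left h hr

theorem smul_sup' {a b : E} {r : ℝ} (hr : 0 < r) : r • (a ⊔ b) = r • a ⊔ r • b := by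
  refine le_antisymm ?_ (sup_le (smul_le hr.le le_sup_left) (smul_le hr.le le_sup_right))
  have h1 : a ⊔ b ≤ r⁻¹ • (r • a ⊔ r • b) := by
    refine sup_le ?_ ?_
    · have := smul_le (inv_pos.2 hr).le (le_sup_left (a := r • a) (b := r • b))
      rwa [inv_smul_smul₀ hr.ne'] at this
    · have := smul_le (inv_pos.2 hr).le (le_sup_right (a := r • a) (b := r • b))
      rwa [inv_smul_smul₀ hr.ne'] at this
  have h2 := smul_le hr.le h1
  rwa [smul_inv_smul₀ hr.ne'] at h2

theorem smul_inf' {a b : E} {r : ℝ} (hr : 0 < r) : r • (a ⊓ b) = r • a ⊓ r • b := by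
  refine le_antisymm (le_inf (smul_le hr.le inf_le_left) (smul_le hr.le inf_le_right)) ?_
  have h1 : r⁻¹ • (r • a ⊓ r • b) ≤ a ⊓ b := by
    refine le_inf ?_ ?_
    · have := smul_le (inv_pos.2 hr).le (inf_le_left (a := r • a) (b := r • b))
      rwa [inv_smul_smul₀ hr.ne'] at this
    · have := smul_le (inv_pos.2 hr).le (inf_le_right (a := r • a) (b := r • b))
      rwa [inv_smul_smul₀ hr.ne'] at this
  have h2 := smul_le hr.le h1
  rwa [smul_inv_smul₀ hr.ne'] at h2

theorem abs_smul' {f : E} {r : ℝ} (hr : 0 < r) : |r • f| = r • |f| := by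
  rw [abs, abs, smul_sup' hr, smul_neg]

theorem smul_nonneg' {a : E} {r : ℝ} (hr : 0 ≤ r) (h : 0 ≤ a) : 0 ≤ r • a := by
  have := smul_le hr h
  rwa [smul_zero] at this

theorem smul_mono_left {a : E} {r s : ℝ} (hrs : r ≤ s) (h : 0 ≤ a) : r • a ≤ s • a := by
  have h1 : 0 ≤ (s - r) • a := smul_nonneg' (sub_nonneg.2 hrs) h
  rw [sub_smul] at h1
  exact sub_nonneg.1 h1

theorem disj_smul {a b : E} {r : ℝ} (hr : 0 ≤ r) (ha : 0 ≤ a) (hb : 0 ≤ b) (h : a ⊓ b = 0) :
    a ⊓ r • b = 0 := by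
  have hr1 : 0 < max r 1 := lt_of_lt_of_le one_pos (le_max_right _ _)
  have h1 : (max r 1 • a) ⊓ (max r 1 • b) = 0 := by rw [← smul_inf' hr1, h, smul_zero]
  refine disj_mono ha (smul_nonneg' hr hb) ?_ (smul_mono_left (le_max_left r 1) hb) h1
  have h2 := smul_mono_left (le_max_right r 1) ha
  rwa [one_smul] at h2

end module

end Pool.Agent.R546.SP
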