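import Pool.Agent.R546.SP.Tail

set_option autoImplicit false
set_option linter.unusedSectionVars false

/-! The order intervals of a Banach lattice are good for separating maps. -/

namespace Pool.Agent.R546.SP

open Filter Topology

variable {E : Type*} [NormedAddCommGroup E] [Lattice E] [HasSolidNorm E] [IsOrderedAddMonoid E]
  [NormedSpace ℝ E] [PosSMulMono ℝ E] [CompleteSpace E]
  {F : Type*} [NormedAddCommGroup F] [NormedSpace ℝ F] {T : E →ₗ[ℝ] F}

/-- `w` is not small compared with `v`, up to good elements. -/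
def Pos (T : E →ₗ[ℝ] F) (v w : E) : Prop := ∃ r : ℝ, 0 < r ∧ Good T ((v - r • w) ⊔ 0)

theorem pos_self (v : E) : Pos T v v := by
  refine ⟨1, one_pos, ?_⟩
  rw [one_smul, sub_self, sup_idem]
  exact good_zero

theorem pos_inf {v w w' : E} (hw : 0 ≤ w) (hw' : 0 ≤ w') (h : Pos T v w) (h' : Pos T v w') :
    Pos T v (w ⊓ w') := by
  obtain ⟨r, hr, h1⟩ := h
  obtain ⟨s, hs, h2⟩ := h'
  refine ⟨max r s, lt_max_of_lt_left hr, ?_⟩
  refine (Good.sup (T := T) le_sup_right le_sup_right h1 h2).mono ?_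
  rw [smul_inf' (lt_max_of_lt_left hr)]
  refine sup_le ?_ (le_sup_right.trans le_sup_left)
  have h3 : v - max r s • w ⊓ max r s • w' = (v - max r s • w) ⊔ (v - max r s • w') := by
    rw [sub_eq_add_neg, neg_inf, add_sup, ← sub_eq_add_neg, ← sub_eq_add_neg]
  rw [h3]
  refine sup_le_sup (le_trans ?_ le_sup_left) (le_trans ?_ le_sup_left)
  · exact sub_le_sub_left (smul_mono_left (le_max_left r s) hw) v
  · exact sub_le_sub_left (smul_mono_left (le_max_right r s) hw') v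

/-- the elements which vanish near the singular point -/
def NN (T : E →ₗ[ℝ] F) (v : E) : Set E := {g | |g| ≤ v ∧ ∃ w, 0 ≤ w ∧ Pos T v w ∧ |g| ⊓ w = 0}

theorem bdd_NN (hT : DB T) {v : E} (hv : 0 ≤ v) : ∃ C : ℝ, ∀ g ∈ NN T v, ‖T g‖ ≤ C := by
  by_contra hcon
  push Not at hcon
  have step : ∀ (w : {w : E // 0 ≤ w ∧ Pos T v w}) (K : ℝ), ∃ (g : E)
      (w' : {w : E // 0 ≤ w ∧ Pos T v w}), w'.1 ≤ w.1 ∧ |g| ≤ v ∧ |g| ⊓ w'.1 = 0 ∧
        (∃ r : ℝ, 0 < r ∧ |g| ≤ r • w.1) ∧ K < ‖T g‖ := by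
    rintro ⟨w, hw, hw'⟩ K
    obtain ⟨r, hr, M, hM⟩ := id hw'
    obtain ⟨g, ⟨hg1, w'', h1, h2, h3⟩, h4⟩ := hcon (K + M)
    have he : 0 ≤ r • w ⊓ v := le_inf (smul_nonneg' hr.le hw) hv
    have h5 : |g - tr (r • w ⊓ v) g| ≤ (v - r • w) ⊔ 0 := by
      refine abs_sub_tr_le le_sup_right ?_
      rw [← sub_inf_eq, add_sub_cancel]
      exact hg1
    have h6 := hM _ h5
    have h7 : ‖T g‖ ≤ ‖T (tr (r • w ⊓ v) g)‖ + ‖T (g - tr (r • w ⊓ v) g)‖ := by
      have h8 : g = tr (r • w ⊓ v) g + (g - tr (r • w ⊓ v) g) := by abel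
      conv_lhs => rw [h8, map_add]
      exact norm_add_le _ _
    refine ⟨tr (r • w ⊓ v) g, ⟨w ⊓ w'', le_inf hw h1, pos_inf hw h1 hw' h2⟩, inf_le_left,
      (abs_tr_le' he).trans hg1, ?_, ⟨r, hr, (abs_tr_le he).trans inf_le_left⟩, by linarith⟩
    exact disj_mono (abs_nonneg _) (le_inf hw h1) (abs_tr_le' he) inf_le_right h3
  choose G W h1 h2 h3 h4 h5 using step
  let V : ℕ → {w : E // 0 ≤ w ∧ Pos T v w} := fun k =>
    Nat.rec (motive := fun _ => {w : E // 0 ≤ w ∧ Pos T v w}) ⟨v, hv, pos_self v⟩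
      (fun k w => W w (k * 2 ^ k)) k
  have hV : ∀ k, V (k + 1) = W (V k) (k * 2 ^ k) := fun _ => rfl
  let g : ℕ → E := fun k => G (V k) (k * 2 ^ k)
  have hdec : ∀ i j, i ≤ j → (V j).1 ≤ (V i).1 := by
    intro i j hij
    induction j, hij using Nat.le_induction with
    | base => exact le_rfl
    | succ j _ ih =>
      rw [hV]
      exact (h1 _ _).trans ih
  have hdis : ∀ i j, i < j → |g i| ⊓ |g j| = 0 := by
    intro i j hij
    obtain ⟨r, hr, h6⟩ := h4 (V j) (j * 2 ^ j)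
    have h7 := h3 (V i) (i * 2 ^ i)
    rw [← hV] at h7
    have h8 := disj_smul hr.le (abs_nonneg _) (V (i + 1)).2.1 h7
    exact disj_mono (abs_nonneg _) (abs_nonneg _) le_rfl
      (h6.trans (smul_le hr.le (hdec _ _ hij))) h8
  obtain ⟨i, hi⟩ := hump' hT (f := g) (fun i j hij => by
      rcases lt_or_gt_of_ne hij with h | h
      · exact hdis i j h
      · rw [inf_comm]
        exact hdis j i h) (K := ‖v‖) fun i => by
      refine norm_le_norm_of_abs_le_abs ?_
      rw [abs_of_nonneg hv]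
      exact h2 _ _
  exact absurd (h5 (V i) (i * 2 ^ i)) (not_lt.2 hi)

/-- the part of `g` above the height `2 ^ (-k)` -/
noncomputable def q (v g : E) (k : ℕ) : E := (g - (1 / 2 : ℝ) ^ k • v) ⊔ 0

/-- the part of `g` at heights around `2 ^ (-k-1)` -/
noncomputable def tent (v g : E) (k : ℕ) : E :=
  (2 : ℝ) • q v g (k + 2) + q v g k - (3 : ℝ) • q v g (k + 1)

section
variable {v g : E}

theorem q_nonneg (k : ℕ) : 0 ≤ q v g k := le_sup_right

theorem q_mono (hv : 0 ≤ v) {i j : ℕ} (hij : i ≤ j) : q v g i ≤ q v g j := by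
  refine sup_le_sup_right (sub_le_sub_left (smul_mono_left ?_ hv) g) 0
  exact pow_le_pow_of_le_one (by norm_num) (by norm_num) hij

theorem q_zero (hg : g ≤ v) : q v g 0 = 0 := by
  unfold q
  rw [pow_zero, one_smul]
  exact sup_eq_right.2 (sub_nonpos.2 hg)

theorem q_le (hv : 0 ≤ v) (hg : 0 ≤ g) (k : ℕ) : q v g k ≤ g := by
  refine sup_le ?_ hg
  exact sub_le_self g (smul_nonneg' (by positivity) hv)

theorem tent_nonneg (k : ℕ) : 0 ≤ tent v g k := by
  unfold tent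
  rw [sub_nonneg]
  have h1 : (3 : ℝ) • q v g (k + 1) = (3 : ℝ) • (g - (1 / 2 : ℝ) ^ (k + 1) • v) ⊔ 0 := by
    unfold q
    rw [smul_sup' (by norm_num), smul_zero]
  rw [h1]
  refine sup_le ?_ (add_nonneg (smul_nonneg' (by norm_num) (q_nonneg _)) (q_nonneg _))
  have h2 : (3 : ℝ) • (g - (1 / 2 : ℝ) ^ (k + 1) • v) =
      (2 : ℝ) • (g - (1 / 2 : ℝ) ^ (k + 2) • v) + (g - (1 / 2 : ℝ) ^ k • v) := by
    rw [pow_succ, pow_succ, pow_succ]
    module
  rw [h2]
  exact add_le_add (smul_le (by norm_num) le_sup_left) le_sup_left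

theorem tent_le (hv : 0 ≤ v) (k : ℕ) : tent v g k ≤ (2 : ℝ) • q v g (k + 2) := by
  unfold tent
  rw [sub_le_iff_le_add]
  gcongr
  refine (q_mono hv (Nat.le_succ k)).trans ?_
  have := smul_mono_left (show (1 : ℝ) ≤ 3 by norm_num) (q_nonneg (v := v) (g := g) (k + 1))
  rwa [one_smul] at this

theorem tent_le' (hv : 0 ≤ v) (k : ℕ) : tent v g k ≤ ((1 / 2 : ℝ) ^ k • v - g) ⊔ 0 := by
  unfold tent
  rw [sub_le_iff_le_add]
  have h1 : q v g k = (g - (1 / 2 : ℝ) ^ k • v) + (((1 / 2 : ℝ) ^ k • v - g) ⊔ 0) := by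
    have h2 := sub_pos_neg (g - (1 / 2 : ℝ) ^ k • v)
    rw [neg_sub] at h2
    exact sub_eq_iff_eq_add.1 h2
  rw [h1]
  have h2 : (2 : ℝ) • q v g (k + 2) + (g - (1 / 2 : ℝ) ^ k • v) ≤ (3 : ℝ) • q v g (k + 1) := by
    have h3 : (2 : ℝ) • q v g (k + 2) = (2 : ℝ) • (g - (1 / 2 : ℝ) ^ (k + 2) • v) ⊔ 0 := by
      unfold q
      rw [smul_sup' (by norm_num), smul_zero]
    rw [h3, sup_add, zero_add]
    refine sup_le ?_ ?_
    · have h4 : (2 : ℝ) • (g - (1 / 2 : ℝ) ^ (k + 2) • v) + (g - (1 / 2 : ℝ) ^ k • v) =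
          (3 : ℝ) • (g - (1 / 2 : ℝ) ^ (k + 1) • v) := by
        rw [pow_succ, pow_succ]
        module
      rw [h4]
      exact smul_le (by norm_num) le_sup_left
    · have h5 : g - (1 / 2 : ℝ) ^ k • v ≤ q v g k := le_sup_left
      refine h5.trans ((q_mono hv (Nat.le_succ k)).trans ?_)
      have := smul_mono_left (show (1 : ℝ) ≤ 3 by norm_num) (q_nonneg (v := v) (g := g) (k + 1))
      rwa [one_smul] at this
  calc (2 : ℝ) • q v g (k + 2) + ((g - (1 / 2 : ℝ) ^ k • v) + (((1 / 2 : ℝ) ^ k • v - g) ⊔ 0))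
      = ((2 : ℝ) • q v g (k + 2) + (g - (1 / 2 : ℝ) ^ k • v)) + (((1 / 2 : ℝ) ^ k • v - g) ⊔ 0) := by
        abel
    _ ≤ (3 : ℝ) • q v g (k + 1) + (((1 / 2 : ℝ) ^ k • v - g) ⊔ 0) := by gcongr
    _ = (((1 / 2 : ℝ) ^ k • v - g) ⊔ 0) + (3 : ℝ) • q v g (k + 1) := add_comm _ _

theorem tent_le_v (hv : 0 ≤ v) (hg : 0 ≤ g) (k : ℕ) : tent v g k ≤ (1 / 2 : ℝ) ^ k • v := by
  refine (tent_le' hv k).trans (sup_le (sub_le_self _ hg) (smul_nonneg' (by positivity) hv))

theorem q_disj (v g : E) {K : ℕ} {t : ℝ} (ht : t ≤ (1 / 2 : ℝ) ^ K) (hv : 0 ≤ v) :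
    q v g K ⊓ ((t • v - g) ⊔ 0) = 0 := by
  refine disj_mono (q_nonneg K) le_sup_right le_rfl ?_ (pos_disj' g ((1 / 2 : ℝ) ^ K • v))
  exact sup_le_sup_right (sub_le_sub_right (smul_mono_left ht hv) g) 0

theorem tent_disj (hv : 0 ≤ v) {i j : ℕ} (hij : i + 2 ≤ j) : tent v g i ⊓ tent v g j = 0 := by
  have h1 : q v g (i + 2) ⊓ (((1 / 2 : ℝ) ^ j • v - g) ⊔ 0) = 0 :=
    q_disj v g (pow_le_pow_of_le_one (by norm_num) (by norm_num) hij) hv
  rw [inf_comm] at h1 ⊢
  have h2 := disj_smul (r := 2) (by norm_num) le_sup_right (q_nonneg _) h1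
  exact disj_mono (tent_nonneg j) (tent_nonneg i) (tent_le' hv j) (tent_le hv i) h2

theorem tent_sum (hg : g ≤ v) (n : ℕ) : ∑ k ∈ Finset.range n, tent v g k =
    (2 : ℝ) • q v g (n + 1) - q v g n - (2 : ℝ) • q v g 1 := by
  induction n with
  | zero =>
    rw [Finset.sum_range_zero, q_zero hg]
    module
  | succ n ih =>
    rw [Finset.sum_range_succ, ih]
    unfold tent
    module

theorem tendsto_q (hv : 0 ≤ v) (hg : 0 ≤ g) : Tendsto (q v g) atTop (𝓝 g) := by
  rw [tendsto_iff_norm_sub_tendsto_zero]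
  have h1 : Tendsto (fun k : ℕ => (1 / 2 : ℝ) ^ k * ‖v‖) atTop (𝓝 0) := by
    have := (tendsto_pow_atTop_nhds_zero_of_lt_one (r := (1 / 2 : ℝ)) (by norm_num)
      (by norm_num)).mul_const ‖v‖
    rwa [zero_mul] at this
  refine squeeze_zero (fun k => norm_nonneg _) (fun k => ?_) h1
  have h2 : ‖(1 / 2 : ℝ) ^ k • v‖ = (1 / 2 : ℝ) ^ k * ‖v‖ := by
    rw [norm_smul, Real.norm_eq_abs, abs_of_pos (by positivity)]
  rw [← h2]
  refine norm_le_norm_of_abs_le_abs ?_
  rw [abs_of_nonneg (smul_nonneg' (by positivity) hv), abs_le']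
  constructor
  · exact (sub_nonpos.2 (q_le hv hg k)).trans (smul_nonneg' (by positivity) hv)
  · rw [neg_sub, sub_le_iff_le_add]
    have h3 : g - (1 / 2 : ℝ) ^ k • v ≤ q v g k := le_sup_left
    rw [sub_le_iff_le_add, add_comm] at h3
    exact h3

theorem tent_norm (hv : 0 ≤ v) (hg : 0 ≤ g) (k : ℕ) : ‖tent v g k‖ ≤ (1 / 2 : ℝ) ^ k * ‖v‖ := by
  have h2 : ‖(1 / 2 : ℝ) ^ k • v‖ = (1 / 2 : ℝ) ^ k * ‖v‖ := by
    rw [norm_smul, Real.norm_eq_abs, abs_of_pos (by positivity)]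
  rw [← h2]
  refine norm_le_norm_of_abs_le_abs ?_
  rw [abs_of_nonneg (tent_nonneg k), abs_of_nonneg (smul_nonneg' (by positivity) hv)]
  exact tent_le_v hv hg k

theorem tent_summable (hv : 0 ≤ v) (hg : 0 ≤ g) : Summable (tent v g) :=
  Summable.of_norm_bounded (summable_geometric_two.mul_right ‖v‖) fun k => tent_norm hv hg k

theorem tent_tsum (hv : 0 ≤ v) (hg : 0 ≤ g) (hgv : g ≤ v) :
    g = (2 : ℝ) • q v g 1 + ∑' k, tent v g k := by
  have h1 := (tent_summable (v := v) hv hg).hasSum.tendsto_sum_nat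
  have h2 : Tendsto (fun n => ∑ k ∈ Finset.range n, tent v g k) atTop
      (𝓝 ((2 : ℝ) • g - g - (2 : ℝ) • q v g 1)) := by
    have h3 : (fun n => ∑ k ∈ Finset.range n, tent v g k) =
        fun n => (2 : ℝ) • q v g (n + 1) - q v g n - (2 : ℝ) • q v g 1 :=
      funext fun n => tent_sum hgv n
    rw [h3]
    have h4 := tendsto_q (v := v) hv hg
    have h5 : Tendsto (fun n => q v g (n + 1)) atTop (𝓝 g) := (tendsto_add_atTop_iff_nat 1).2 h4
    exact ((h5.const_smul (2 : ℝ)).sub h4).sub_const _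
  have h3 := tendsto_nhds_unique h1 h2
  rw [h3]
  module

end

theorem pos_low {v g : E} (hg : ∀ ε : ℝ, 0 < ε → Good T ((g - ε • v) ⊔ 0)) (K : ℕ) :
    Pos T v (((1 / 2 : ℝ) ^ K • v - g) ⊔ 0) := by
  refine ⟨2 ^ (K + 1), by positivity, ?_⟩
  have h1 := (hg ((1 / 2 : ℝ) ^ (K + 1)) (by positivity)).smul
    (show (0 : ℝ) ≤ 2 ^ (K + 1) by positivity)
  refine h1.mono (sup_le ?_ (smul_nonneg' (by positivity) le_sup_right))
  have h2 : v - (2 : ℝ) ^ (K + 1) • (((1 / 2 : ℝ) ^ K • v - g) ⊔ 0) ≤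
      v - (2 : ℝ) ^ (K + 1) • ((1 / 2 : ℝ) ^ K • v - g) :=
    sub_le_sub_left (smul_le (by positivity) le_sup_left) v
  refine h2.trans ?_
  have h3 : v - (2 : ℝ) ^ (K + 1) • ((1 / 2 : ℝ) ^ K • v - g) =
      (2 : ℝ) ^ (K + 1) • (g - (1 / 2 : ℝ) ^ (K + 1) • v) := by
    have e1 : (2 : ℝ) ^ (K + 1) * (1 / 2 : ℝ) ^ K = 2 := by
      rw [pow_succ, one_div, inv_pow]
      field_simp
    have e2 : (2 : ℝ) ^ (K + 1) * (1 / 2 : ℝ) ^ (K + 1) = 1 := by
      rw [one_div, inv_pow]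
      field_simp
    rw [smul_sub, smul_sub, smul_smul, smul_smul, e1, e2]
    module
  rw [h3]
  exact smul_le (by positivity) le_sup_left

theorem q_mem {v g : E} (hv : 0 ≤ v) (hg0 : 0 ≤ g) (hgv : g ≤ v)
    (hg : ∀ ε : ℝ, 0 < ε → Good T ((g - ε • v) ⊔ 0)) (K : ℕ) : q v g K ∈ NN T v := by
  refine ⟨?_, _, le_sup_right, pos_low hg K, ?_⟩
  · rw [abs_of_nonneg (q_nonneg K)]
    exact (q_le hv hg0 K).trans hgv
  · rw [abs_of_nonneg (q_nonneg K)]
    exact q_disj v g le_rfl hv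

/-- sums of disjoint tents -/
theorem tents {v g : E} (hv : 0 ≤ v) (hg0 : 0 ≤ g)
    (hP : ∀ u : ℕ → E, DSeq u → ∃ N, Good T (∑' n, u (n + N)))
    (hg : ∀ ε : ℝ, 0 < ε → Good T ((g - ε • v) ⊔ 0)) {C : ℝ} (hC : ∀ g ∈ NN T v, ‖T g‖ ≤ C)
    (δ : ℕ) : ‖T (∑' m, tent v g (2 * m + δ))‖ ≤ 2 * C + 1 := by
  set z : ℕ → E := fun m => tent v g (2 * m + δ) with hz
  have hz0 : ∀ m, 0 ≤ z m := fun m => tent_nonneg _
  have hz1 : ∀ m, ‖z m‖ ≤ (1 / 2 : ℝ) ^ (2 * m) * ‖v‖ := fun m => by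
    refine (tent_norm hv hg0 _).trans (mul_le_mul_of_nonneg_right ?_ (norm_nonneg _))
    exact pow_le_pow_of_le_one (by norm_num) (by norm_num) (by omega)
  have hzs : Summable z := by
    refine Summable.of_norm_bounded (summable_geometric_two.mul_right ‖v‖) fun m => ?_
    refine (hz1 m).trans (mul_le_mul_of_nonneg_right ?_ (norm_nonneg _))
    exact pow_le_pow_of_le_one (by norm_num) (by norm_num) (by omega)
  set u : ℕ → E := fun m => (2 : ℝ) ^ m • z m with hu
  have hun : ∀ m, ‖u m‖ ≤ (1 / 2 : ℝ) ^ m * ‖v‖ := fun m => by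
    rw [hu]
    simp only
    rw [norm_smul, Real.norm_eq_abs, abs_of_pos (by positivity)]
    have h1 := mul_le_mul_of_nonneg_left (hz1 m) (show (0 : ℝ) ≤ 2 ^ m by positivity)
    refine h1.trans (le_of_eq ?_)
    rw [← mul_assoc]
    congr 1
    rw [pow_mul', pow_two, ← mul_assoc, ← mul_pow]
    norm_num
  have huD : DSeq u := by
    refine ⟨fun m => smul_nonneg' (by positivity) (hz0 m), fun i j hij => ?_, ?_⟩
    · have h1 : z i ⊓ z j = 0 := by
        rcases lt_or_gt_of_ne hij with h | h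
        · exact tent_disj hv (by omega)
        · rw [inf_comm]
          exact tent_disj hv (by omega)
      have h2 := disj_smul (r := 2 ^ j) (by positivity) (hz0 i) (hz0 j) h1
      rw [inf_comm] at h2 ⊢
      exact disj_smul (by positivity) (smul_nonneg' (by positivity) (hz0 j)) (hz0 i) h2
    · exact Summable.of_nonneg_of_le (fun m => norm_nonneg _) hun
        (summable_geometric_two.mul_right ‖v‖)
  have hus : Summable u := huD.sum.of_norm
  obtain ⟨N, M, hM⟩ := hP u huD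
  obtain ⟨j, hj⟩ : ∃ j : ℕ, M * (1 / 2 : ℝ) ^ j ≤ 1 := by
    have h1 : Tendsto (fun j : ℕ => M * (1 / 2 : ℝ) ^ j) atTop (𝓝 (M * 0)) :=
      (tendsto_pow_atTop_nhds_zero_of_lt_one (by norm_num) (by norm_num)).const_mul M
    rw [mul_zero] at h1
    exact (h1.eventually_le_const one_pos).exists
  -- the remainder
  have hM0 : 0 ≤ M := (norm_nonneg _).trans (hM 0 (by
    rw [abs_zero]
    exact tsum_nonneg fun n => huD.nonneg _))
  set n := N + j with hn
  have hr : ‖T (∑' m, z (m + n))‖ ≤ 1 := by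
    have h1 : |(2 : ℝ) ^ n • ∑' m, z (m + n)| ≤ ∑' m, u (m + N) := by
      rw [abs_of_nonneg (smul_nonneg' (by positivity) (tsum_nonneg fun m => hz0 _))]
      have h2 : (2 : ℝ) ^ n • ∑' m, z (m + n) ≤ ∑' m, u (m + n) := by
        have h3 : Summable fun m => z (m + n) := (summable_nat_add_iff n).2 hzs
        rw [← h3.tsum_const_smul]
        refine (h3.const_smul _).tsum_le_tsum (fun m => ?_) ((summable_nat_add_iff n).2 hus)
        refine smul_mono_left ?_ (hz0 _)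
        exact pow_le_pow_right₀ (by norm_num) (Nat.le_add_left n m)
      refine h2.trans ?_
      have h4 : Summable fun m => u (m + N) := (summable_nat_add_iff N).2 hus
      rw [← h4.sum_add_tsum_nat_add j]
      have h5 : ∀ m, u (m + j + N) = u (m + n) := fun m => by
        congr 1
        omega
      simp only [h5]
      exact le_add_of_nonneg_left (Finset.sum_nonneg fun m _ => huD.nonneg _)
    have h2 := hM _ h1
    rw [map_smul, norm_smul, Real.norm_eq_abs, abs_of_pos (by positivity)] at h2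
    have h3 : (1 / 2 : ℝ) ^ n * (2 ^ n * ‖T (∑' m, z (m + n))‖) ≤ (1 / 2 : ℝ) ^ n * M :=
      mul_le_mul_of_nonneg_left h2 (by positivity)
    rw [← mul_assoc, ← mul_pow] at h3
    have h4 : (1 / 2 : ℝ) * 2 = 1 := by norm_num
    rw [h4, one_pow, one_mul] at h3
    have h5 : (1 / 2 : ℝ) ^ n ≤ (1 / 2) ^ j :=
      pow_le_pow_of_le_one (by norm_num) (by norm_num) (by omega)
    nlinarith [mul_le_mul_of_nonneg_right h5 hM0]
  -- the partial sum
  have hs : ‖T (∑ m ∈ Finset.range n, z m)‖ ≤ 2 * C := by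
    have h1 : (1 / 2 : ℝ) • ∑ m ∈ Finset.range n, z m ∈ NN T v := by
      have h0 : 0 ≤ ∑ m ∈ Finset.range n, z m := Finset.sum_nonneg fun m _ => hz0 m
      refine ⟨?_, _, le_sup_right, pos_low hg (2 * n + δ + 2), ?_⟩
      · rw [abs_of_nonneg (smul_nonneg' (by norm_num) h0)]
        have h2 : ∑ m ∈ Finset.range n, z m ≤ (∑ m ∈ Finset.range n, (1 / 2 : ℝ) ^ m) • v := by
          rw [Finset.sum_smul]
          refine Finset.sum_le_sum fun m _ => (tent_le_v hv hg0 _).trans (smul_mono_left ?_ hv)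
          exact pow_le_pow_of_le_one (by norm_num) (by norm_num) (by omega)
        have h3 : ∑ m ∈ Finset.range n, (1 / 2 : ℝ) ^ m ≤ 2 := sum_geometric_two_le n
        have h4 := h2.trans (smul_mono_left h3 hv)
        have h5 := smul_le (show (0 : ℝ) ≤ 1 / 2 by norm_num) h4
        rw [smul_smul] at h5
        norm_num at h5
        exact (by simpa using h5)
      · rw [abs_of_nonneg (smul_nonneg' (by norm_num) h0), inf_comm]
        refine disj_smul (by norm_num) le_sup_right h0 ?_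
        refine disj_sum le_sup_right _ (fun m _ => hz0 m) fun m hm => ?_
        have hm' : m < n := Finset.mem_range.1 hm
        have h2 := q_disj v g (K := 2 * n + δ + 2) le_rfl hv
        rw [inf_comm] at h2
        have h3 := disj_smul (r := 2) (by norm_num) le_sup_right (q_nonneg _) h2
        refine disj_mono le_sup_right (hz0 m) le_rfl ?_ h3
        refine (tent_le hv _).trans (smul_le (by norm_num) (q_mono hv (by omega)))
    have h2 := hC _ h1
    rw [map_smul, norm_smul, Real.norm_eq_abs, abs_of_pos (by norm_num)] at h2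
    linarith
  have h6 : ∑' m, z m = ∑ m ∈ Finset.range n, z m + ∑' m, z (m + n) :=
    (hzs.sum_add_tsum_nat_add n).symm
  rw [h6, map_add]
  exact (norm_add_le _ _).trans (add_le_add hs hr)

/-- elements which are small at the singular point -/
theorem small {v g : E} (hv : 0 ≤ v) (hg0 : 0 ≤ g) (hgv : g ≤ v)
    (hP : ∀ u : ℕ → E, DSeq u → ∃ N, Good T (∑' n, u (n + N)))
    (hg : ∀ ε : ℝ, 0 < ε → Good T ((g - ε • v) ⊔ 0)) {C : ℝ} (hC : ∀ g ∈ NN T v, ‖T g‖ ≤ C) :
    ‖T g‖ ≤ 6 * C + 2 := by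
  have h1 := tent_tsum hv hg0 hgv
  have h2 : ∑' k, tent v g k = ∑' m, tent v g (2 * m + 0) + ∑' m, tent v g (2 * m + 1) := by
    have h3 := tent_summable (v := v) hv hg0
    refine (tsum_even_add_odd (f := tent v g) ?_ ?_).symm
    · exact h3.comp_injective (i := fun m : ℕ => 2 * m) fun a b hab => by
        have : 2 * a = 2 * b := hab
        omega
    · exact h3.comp_injective (i := fun m : ℕ => 2 * m + 1) fun a b hab => by
        have : 2 * a + 1 = 2 * b + 1 := hab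
        omega
  have h3 := tents hv hg0 hP hg hC 0
  have h4 := tents hv hg0 hP hg hC 1
  have h5 := hC _ (q_mem hv hg0 hgv hg 1)
  have h6 : T g = (2 : ℝ) • T (q v g 1) + (T (∑' m, tent v g (2 * m + 0)) +
      T (∑' m, tent v g (2 * m + 1))) := by
    conv_lhs => rw [h1, h2, map_add, map_add, map_smul]
  rw [h6]
  refine (norm_add_le _ _).trans ?_
  have h7 := norm_add_le (T (∑' m, tent v g (2 * m + 0))) (T (∑' m, tent v g (2 * m + 1)))
  have h8 : ‖(2 : ℝ) • T (q v g 1)‖ = 2 * ‖T (q v g 1)‖ := by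
    rw [norm_smul]
    norm_num
  linarith

/-- All nonnegative elements are good. -/
theorem all_good (hT : DB T)
    (hP : ∀ u : ℕ → E, DSeq u → ∃ N, Good T (∑' n, u (n + N))) {u : E} (hu : 0 ≤ u) :
    Good T u := by
  by_contra hbad
  obtain ⟨v, hv, hvbad, hprime⟩ := exists_prime hT hu hbad
  obtain ⟨C, hC⟩ := bdd_NN hT hv
  apply hvbad
  have key : ∀ w, 0 ≤ w → w ≤ v → ‖T w‖ ≤ ‖T v‖ + 2 * (6 * C + 2) := by
    intro w hw hwv
    -- the value at the singular point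
    have h1 : ∃ l : ℝ, 0 ≤ l ∧ l ≤ 1 ∧ (∀ ε : ℝ, 0 < ε → Good T ((w - (l + ε) • v) ⊔ 0)) ∧
        ∀ ε : ℝ, 0 < ε → Good T (((l - ε) • v - w) ⊔ 0) := by
      have hbig : ∀ t : ℝ, 1 ≤ t → Good T ((w - t • v) ⊔ 0) := by
        intro t ht
        have h2 := smul_mono_left ht hv
        rw [one_smul] at h2
        rw [sup_eq_right.2 (sub_nonpos.2 (hwv.trans h2))]
        exact good_zero
      have hneg : ∀ t : ℝ, t ≤ 0 → Good T ((t • v - w) ⊔ 0) := by
        intro t ht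
        have h2 := smul_mono_left ht hv
        rw [zero_smul] at h2
        rw [sup_eq_right.2 (sub_nonpos.2 (h2.trans hw))]
        exact good_zero
      by_cases hne : ∃ t : ℝ, 0 ≤ t ∧ ¬ Good T ((w - t • v) ⊔ 0)
      · obtain ⟨t₀, ht₀, ht₀'⟩ := hne
        let S : Set ℝ := {t | 0 ≤ t ∧ ¬ Good T ((w - t • v) ⊔ 0)}
        have hS1 : ∀ t ∈ S, t ≤ 1 := by
          rintro t ⟨-, ht⟩
          by_contra hc
          exact ht (hbig t (not_le.1 hc).le)
        have hbd : BddAbove S := ⟨1, hS1⟩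
        have hSne : S.Nonempty := ⟨t₀, ht₀, ht₀'⟩
        refine ⟨sSup S, ht₀.trans (le_csSup hbd ⟨ht₀, ht₀'⟩), csSup_le hSne hS1, ?_, ?_⟩
        · intro ε hε
          by_contra hc
          have h2 : sSup S + ε ≤ sSup S := le_csSup hbd
            ⟨by linarith [ht₀.trans (le_csSup hbd ⟨ht₀, ht₀'⟩)], hc⟩
          linarith
        · intro ε hε
          obtain ⟨t, ⟨ht0, ht⟩, ht'⟩ := exists_lt_of_lt_csSup hSne
            (show sSup S - ε < sSup S by linarith)
          have ht1 := hS1 t ⟨ht0, ht⟩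
          have h2 := hprime ((w - t • v) ⊔ 0) ((t • v - w) ⊔ 0) le_sup_right le_sup_right
            (sup_le ((sub_le_self w (smul_nonneg' ht0 hv)).trans hwv) hv)
            (sup_le ((sub_le_self _ hw).trans (by
              have := smul_mono_left ht1 hv
              rwa [one_smul] at this)) hv) (pos_disj' w (t • v))
          rcases h2 with h2 | h2
          · exact absurd h2 ht
          · refine h2.mono (sup_le_sup_right (sub_le_sub_right (smul_mono_left ht'.le hv) w) 0)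
      · push Not at hne
        refine ⟨0, le_rfl, zero_le_one, fun ε hε => ?_, fun ε hε => hneg _ (by linarith)⟩
        rw [zero_add]
        exact hne ε hε.le
    obtain ⟨l, hl0, hl1, h2, h3⟩ := h1
    have hlv : l • v ≤ v := by
      have := smul_mono_left hl1 hv
      rwa [one_smul] at this
    have h4 : ‖T ((w - l • v) ⊔ 0)‖ ≤ 6 * C + 2 := by
      refine small hv le_sup_right
        (sup_le ((sub_le_self w (smul_nonneg' hl0 hv)).trans hwv) hv) hP (fun ε hε => ?_) hC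
      rw [pos_pos_sub (smul_nonneg' hε.le hv), sub_sub, ← add_smul]
      exact h2 ε hε
    have h5 : ‖T ((l • v - w) ⊔ 0)‖ ≤ 6 * C + 2 := by
      refine small hv le_sup_right (sup_le ((sub_le_self _ hw).trans hlv) hv) hP
        (fun ε hε => ?_) hC
      rw [pos_pos_sub (smul_nonneg' hε.le hv), sub_right_comm, ← sub_smul]
      exact h3 ε hε
    have h6 : w = l • v + ((w - l • v) ⊔ 0 - (l • v - w) ⊔ 0) := by
      have h7 := sub_pos_neg (w - l • v)
      rw [neg_sub] at h7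
      rw [h7]
      abel
    have h7 : ‖T w‖ ≤ ‖T (l • v)‖ + (‖T ((w - l • v) ⊔ 0)‖ + ‖T ((l • v - w) ⊔ 0)‖) := by
      conv_lhs => rw [h6, map_add, map_sub]
      exact (norm_add_le _ _).trans (add_le_add le_rfl (norm_sub_le _ _))
    have h8 : ‖T (l • v)‖ ≤ ‖T v‖ := by
      rw [map_smul, norm_smul, Real.norm_eq_abs, abs_of_nonneg hl0]
      exact mul_le_of_le_one_left (norm_nonneg _) hl1
    linarith
  refine ⟨2 * (‖T v‖ + 2 * (6 * C + 2)), fun f hf => ?_⟩
  have h1 := key (f ⊔ 0) le_sup_right (sup_le ((le_abs_self f).trans hf) hv)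
  have h2 := key ((-f) ⊔ 0) le_sup_right (sup_le ((neg_le_abs f).trans hf) hv)
  have h3 : ‖T f‖ ≤ ‖T (f ⊔ 0)‖ + ‖T ((-f) ⊔ 0)‖ := by
    conv_lhs => rw [← sub_pos_neg f, map_sub]
    exact norm_sub_le _ _
  linarith

/-- A separating map which is bounded on order intervals is continuous. -/
theorem continuous_of_good (hg : ∀ u : E, 0 ≤ u → Good T u) : Continuous T := by
  by_contra hc
  have h1 : ∀ n : ℕ, ∃ x : E, (8 : ℝ) ^ n * ‖x‖ < ‖T x‖ := by
    intro n
    by_contra h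
    push Not at h
    exact hc (AddMonoidHomClass.continuous_of_bound T ((8 : ℝ) ^ n) h)
  choose x hx using h1
  have hx0 : ∀ n, 0 < ‖x n‖ := by
    intro n
    rw [norm_pos_iff]
    intro h
    have := hx n
    rw [h, map_zero, norm_zero, norm_zero, mul_zero] at this
    exact lt_irrefl _ this
  let y : ℕ → E := fun n => (((1 / 2 : ℝ) ^ n) * ‖x n‖⁻¹) • x n
  have hy : ∀ n, ‖y n‖ = (1 / 2 : ℝ) ^ n := by
    intro n
    have h2 := hx0 n
    rw [norm_smul, Real.norm_eq_abs, abs_of_pos (by positivity), mul_assoc,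
      inv_mul_cancel₀ h2.ne', mul_one]
  have hys : Summable fun n => |y n| := by
    refine Summable.of_norm_bounded summable_geometric_two fun n => ?_
    rw [norm_abs_eq_norm, hy]
  obtain ⟨M, hM⟩ := hg (∑' n, |y n|) (tsum_nonneg fun n => abs_nonneg _)
  have h2 : ∀ n : ℕ, (4 : ℝ) ^ n < M := by
    intro n
    refine lt_of_lt_of_le ?_ (hM (y n) (hys.le_tsum n fun i _ => abs_nonneg _))
    have h3 := hx0 n
    rw [map_smul, norm_smul, Real.norm_eq_abs, abs_of_pos (by positivity)]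
    have h4 : (4 : ℝ) ^ n = ((1 / 2 : ℝ) ^ n * ‖x n‖⁻¹) * (8 ^ n * ‖x n‖) := by
      have h5 : (4 : ℝ) ^ n = (1 / 2 : ℝ) ^ n * 8 ^ n := by
        rw [← mul_pow]
        norm_num
      rw [h5]
      field_simp
    rw [h4]
    exact mul_lt_mul_of_pos_left (hx n) (by positivity)
  obtain ⟨n, hn⟩ := exists_nat_gt M
  have h3 : (n : ℝ) ≤ 4 ^ n := by
    have h4 : n < 4 ^ n := Nat.lt_pow_self (by norm_num)
    exact_mod_cast h4.le
  linarith [h2 n]

end Pool.Agent.R546.SP
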