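import Pool.Agent.R546.SP.Lat

set_option autoImplicit false
set_option linter.unusedSectionVars false

/-! Separating linear maps on Banach lattices: boundedness on order intervals. -/

namespace Pool.Agent.R546.SP

open Filter Topology

variable {E : Type*} [NormedAddCommGroup E] [Lattice E] [HasSolidNorm E] [IsOrderedAddMonoid E]
  [NormedSpace ℝ E] [PosSMulMono ℝ E] [CompleteSpace E]
  {F : Type*} [NormedAddCommGroup F] [NormedSpace ℝ F]

/-- `T` is bounded on the order interval `[-u, u]`. -/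
def Good (T : E →ₗ[ℝ] F) (u : E) : Prop := ∃ M : ℝ, ∀ f, |f| ≤ u → ‖T f‖ ≤ M

variable {T : E →ₗ[ℝ] F}

theorem Good.mono {u v : E} (h : Good T v) (huv : u ≤ v) : Good T u := by
  obtain ⟨M, hM⟩ := h
  exact ⟨M, fun f hf => hM f (hf.trans huv)⟩

theorem Good.add {u v : E} (hu : 0 ≤ u) (hv : 0 ≤ v) (h1 : Good T u) (h2 : Good T v) :
    Good T (u + v) := by
  obtain ⟨M, hM⟩ := h1
  obtain ⟨N, hN⟩ := h2
  refine ⟨M + N, fun f hf => ?_⟩
  have h3 := hM _ (abs_tr_le (f := f) hu)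
  have h4 := hN _ (abs_sub_tr_le hv hf)
  have h5 : f = tr u f + (f - tr u f) := by abel
  rw [h5, map_add]
  exact (norm_add_le _ _).trans (add_le_add h3 h4)

theorem good_zero : Good T 0 := by
  refine ⟨0, fun f hf => ?_⟩
  have h1 : |f| = 0 := le_antisymm hf (abs_nonneg f)
  have h2 : f = 0 := by
    have h3 := norm_abs_eq_norm f
    rw [h1, norm_zero] at h3
    exact norm_eq_zero.1 h3.symm
  rw [h2, map_zero, norm_zero]

theorem Good.smul {u : E} {r : ℝ} (hr : 0 ≤ r) (h : Good T u) : Good T (r • u) := by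
  rcases hr.eq_or_lt with rfl | hr
  · rw [zero_smul]
    exact good_zero
  · obtain ⟨M, hM⟩ := h
    refine ⟨r * M, fun f hf => ?_⟩
    have h1 : |r⁻¹ • f| ≤ u := by
      rw [abs_smul' (inv_pos.2 hr)]
      have := smul_le (inv_pos.2 hr).le hf
      rwa [inv_smul_smul₀ hr.ne'] at this
    have h2 := hM _ h1
    rw [map_smul, norm_smul, Real.norm_eq_abs, abs_of_pos (inv_pos.2 hr),
      inv_mul_le_iff₀ hr] at h2
    exact h2

theorem Good.sup {u v : E} (hu : 0 ≤ u) (hv : 0 ≤ v) (h1 : Good T u) (h2 : Good T v) :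
    Good T (u ⊔ v) :=
  (h1.add hu hv h2).mono (sup_le (le_add_of_nonneg_right hv) (le_add_of_nonneg_left hu))

/-- Disjoint vectors are sent to vectors which are orthogonal up to the constant `c`. -/
def Sep (T : E →ₗ[ℝ] F) (c : ℝ) : Prop :=
  ∀ f g : E, |f| ⊓ |g| = 0 → ‖T f‖ ≤ c * ‖T f + T g‖

/-- `T` is bounded on every absolutely summable sequence of pairwise disjoint elements. -/
def DB (T : E →ₗ[ℝ] F) : Prop :=
  ∀ f : ℕ → E, (∀ i j, i ≠ j → |f i| ⊓ |f j| = 0) → (Summable fun i => ‖f i‖) →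
    ∃ C : ℝ, ∀ i, ‖T (f i)‖ ≤ C

theorem hump {c : ℝ} (hT : Sep T c) : DB T := by
  intro f hd hs
  have hs' : Summable f := hs.of_norm
  refine ⟨c * ‖T (∑' i, f i)‖, fun i => ?_⟩
  have h1 : |f i| ⊓ |(∑' j, f j) - f i| = 0 := by
    have hcl : IsClosed {g : E | |f i| ⊓ |g - f i| = 0} := by
      refine isClosed_eq ?_ continuous_const
      refine continuous_const.inf ?_
      have h2 : Continuous fun g : E => g - f i := by fun_prop
      exact (continuous_id.sup continuous_neg).comp h2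
    refine hcl.mem_of_tendsto hs'.hasSum ?_
    filter_upwards [eventually_ge_atTop {i}] with s hs1
    have hi : i ∈ s := hs1 (Finset.mem_singleton_self i)
    show |f i| ⊓ |∑ j ∈ s, f j - f i| = 0
    have h3 : ∑ j ∈ s, f j - f i = ∑ j ∈ s.erase i, f j := by
      rw [← Finset.add_sum_erase s f hi]
      abel
    rw [h3]
    exact abs_disj_sum _ fun j hj => hd i j (Ne.symm (Finset.ne_of_mem_erase hj))
  have h2 := hT _ _ h1
  rwa [← map_add, add_sub_cancel] at h2

theorem hump' (hT : DB T) {f : ℕ → E}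
    (hd : ∀ i j, i ≠ j → |f i| ⊓ |f j| = 0) {K : ℝ} (hK : ∀ i, ‖f i‖ ≤ K) :
    ∃ i : ℕ, ‖T (f i)‖ ≤ i * 2 ^ i := by
  by_contra hc
  push Not at hc
  have h2 : ∀ i : ℕ, (0 : ℝ) < (1 / 2) ^ i := fun i => by positivity
  obtain ⟨C, hC⟩ := hT (fun i => ((1 / 2 : ℝ) ^ i) • f i) (fun i j hij => by
    rw [abs_smul' (h2 i), abs_smul' (h2 j)]
    have h3 := hd i j hij
    have h4 := disj_smul (h2 j).le (abs_nonneg _) (abs_nonneg _) h3
    rw [inf_comm] at h4 ⊢
    exact disj_smul (h2 i).le (smul_nonneg' (h2 j).le (abs_nonneg _)) (abs_nonneg _) h4) (by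
    refine Summable.of_nonneg_of_le (fun i => norm_nonneg _) (fun i => ?_)
      (summable_geometric_two.mul_right K)
    rw [norm_smul, Real.norm_eq_abs, abs_of_pos (h2 i)]
    exact mul_le_mul_of_nonneg_left (hK i) (h2 i).le)
  obtain ⟨n, hn⟩ := exists_nat_gt C
  have h3 := hC n
  rw [map_smul, norm_smul, Real.norm_eq_abs, abs_of_pos (h2 n)] at h3
  have h4 := mul_lt_mul_of_pos_left (hc n) (h2 n)
  have h5 : (1 / 2 : ℝ) ^ n * (n * 2 ^ n) = n := by
    rw [one_div, inv_pow]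
    field_simp
  linarith

/-- there is no infinite bounded sequence of disjoint bad elements -/
theorem exists_good (hT : DB T) {b : ℕ → E} (hb : ∀ i, 0 ≤ b i)
    (hd : ∀ i j, i ≠ j → b i ⊓ b j = 0) {K : ℝ} (hK : ∀ i, ‖b i‖ ≤ K) : ∃ i, Good T (b i) := by
  by_contra hc
  push Not at hc
  have h1 : ∀ i : ℕ, ∃ f : E, |f| ≤ b i ∧ (i : ℝ) * 2 ^ i < ‖T f‖ := by
    intro i
    have := hc i
    unfold Good at this
    push Not at this
    exact this (i * 2 ^ i)
  choose f hf1 hf2 using h1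
  obtain ⟨i, hi⟩ := hump' hT (f := f) (fun i j hij =>
    disj_mono (abs_nonneg _) (abs_nonneg _) (hf1 i) (hf1 j) (hd i j hij)) (K := K) fun i => by
      refine le_trans (norm_le_norm_of_abs_le_abs ?_) (hK i)
      rw [abs_of_nonneg (hb i)]
      exact hf1 i
  exact absurd (hf2 i) (not_lt.2 hi)

/-- a bad element such that of two disjoint smaller elements at least one is good -/
theorem exists_prime (hT : DB T) {u : E} (hu : 0 ≤ u) (hbad : ¬ Good T u) :
    ∃ v, 0 ≤ v ∧ ¬ Good T v ∧ ∀ a b, 0 ≤ a → 0 ≤ b → a ≤ v → b ≤ v → a ⊓ b = 0 →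
      Good T a ∨ Good T b := by
  by_contra hcon
  push Not at hcon
  let X := {v : E // 0 ≤ v ∧ ¬ Good T v}
  have step : ∀ v : X, ∃ a b : X, a.1 ≤ v.1 ∧ b.1 ≤ v.1 ∧ a.1 ⊓ b.1 = 0 := by
    rintro ⟨v, hv, hv'⟩
    obtain ⟨a, b, h1, h2, h3, h4, h5, h6, h7⟩ := hcon v hv hv'
    exact ⟨⟨a, h1, h6⟩, ⟨b, h2, h7⟩, h3, h4, h5⟩
  choose A B hA hB hAB using step
  let V : ℕ → X := fun k => Nat.rec (motive := fun _ => X) ⟨u, hu, hbad⟩ (fun _ v => A v) k
  have hV : ∀ k, V (k + 1) = A (V k) := fun _ => rfl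
  have hdec : ∀ i j, i ≤ j → (V j).1 ≤ (V i).1 := by
    intro i j hij
    induction j, hij using Nat.le_induction with
    | base => exact le_rfl
    | succ j _ ih =>
      rw [hV]
      exact (hA _).trans ih
  have hdis : ∀ i j, i < j → (B (V i)).1 ⊓ (B (V j)).1 = 0 := by
    intro i j hij
    have h1 := hAB (V i)
    rw [← hV, inf_comm] at h1
    exact disj_mono (B (V i)).2.1 (B (V j)).2.1 le_rfl ((hB _).trans (hdec _ _ hij)) h1
  obtain ⟨i, hi⟩ := exists_good hT (b := fun i => (B (V i)).1) (fun i => (B (V i)).2.1)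
    (fun i j hij => by
      rcases lt_or_gt_of_ne hij with h | h
      · exact hdis i j h
      · rw [inf_comm]
        exact hdis j i h) (K := ‖u‖) fun i => by
      refine norm_le_norm_of_abs_le_abs ?_
      rw [abs_of_nonneg (B (V i)).2.1, abs_of_nonneg hu]
      exact (hB _).trans (hdec 0 i (Nat.zero_le _))
  exact (B (V i)).2.2 hi

end Pool.Agent.R546.SP
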