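import Pool.Agent.R546.SP.Op
import Pool.Agent.TH774.KP.Part

set_option autoImplicit false
set_option linter.unusedSectionVars false

/-! Tails of sums of disjoint sequences are good. -/

namespace Pool.Agent.R546.SP

open Filter Topology

variable {E : Type*} [NormedAddCommGroup E] [Lattice E] [HasSolidNorm E] [IsOrderedAddMonoid E]
  [NormedSpace ℝ E] [PosSMulMono ℝ E] [CompleteSpace E]
  {F : Type*} [NormedAddCommGroup F] [NormedSpace ℝ F] {T : E →ₗ[ℝ] F}

/-- an absolutely summable sequence of pairwise disjoint nonnegative elements -/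
structure DSeq (u : ℕ → E) : Prop where
  nonneg : ∀ n, 0 ≤ u n
  disj : ∀ i j, i ≠ j → u i ⊓ u j = 0
  sum : Summable fun n => ‖u n‖

theorem DSeq.shift {u : ℕ → E} (h : DSeq u) (N : ℕ) : DSeq fun n => u (n + N) :=
  ⟨fun n => h.nonneg _, fun i j hij => h.disj _ _ (by omega),
    (summable_nat_add_iff (f := fun n => ‖u n‖) N).2 h.sum⟩

theorem disj_tsum {a : E} (ha : 0 ≤ a) {w : ℕ → E} (hw : ∀ n, 0 ≤ w n) (hs : Summable w)
    (h : ∀ n, a ⊓ w n = 0) : a ⊓ ∑' n, w n = 0 := by
  have hcl : IsClosed {g : E | a ⊓ g = 0} :=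
    isClosed_eq (continuous_const.inf continuous_id) continuous_const
  refine hcl.mem_of_tendsto hs.hasSum (Eventually.of_forall fun s => ?_)
  exact disj_sum ha s (fun i _ => hw i) fun i _ => h i

/-- the sum over the indices in `A` -/
noncomputable def USm (u : ℕ → E) (A : Set ℕ) : E := ∑' n, A.indicator u n

section
variable {u : ℕ → E}

theorem DSeq.ind_nonneg (h : DSeq u) (A : Set ℕ) (n : ℕ) : 0 ≤ A.indicator u n :=
  Set.indicator_nonneg (fun n _ => h.nonneg n) n

theorem DSeq.summable (h : DSeq u) (A : Set ℕ) : Summable (A.indicator u) := by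
  refine Summable.of_norm_bounded h.sum fun n => ?_
  exact norm_indicator_le_norm_self _ _

theorem DSeq.us_nonneg (h : DSeq u) (A : Set ℕ) : 0 ≤ USm u A :=
  tsum_nonneg fun n => h.ind_nonneg A n

theorem DSeq.us_mono (h : DSeq u) {A B : Set ℕ} (hAB : A ⊆ B) : USm u A ≤ USm u B :=
  (h.summable A).tsum_le_tsum (fun n => Set.indicator_le_indicator_of_subset hAB
    (fun n => h.nonneg n) n) (h.summable B)

theorem DSeq.us_union (h : DSeq u) (A B : Set ℕ) : USm u (A ∪ B) ≤ USm u A + USm u B := by
  unfold USm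
  rw [← (h.summable A).tsum_add (h.summable B)]
  refine (h.summable _).tsum_le_tsum (fun n => ?_) ((h.summable A).add (h.summable B))
  by_cases hA : n ∈ A
  · rw [Set.indicator_of_mem (Set.mem_union_left B hA), Set.indicator_of_mem hA]
    exact le_add_of_nonneg_right (h.ind_nonneg B n)
  · by_cases hB : n ∈ B
    · rw [Set.indicator_of_mem (Set.mem_union_right A hB), Set.indicator_of_mem hB]
      exact le_add_of_nonneg_left (h.ind_nonneg A n)
    · rw [Set.indicator_of_notMem (by rintro (h1 | h1); exacts [hA h1, hB h1])]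
      exact add_nonneg (h.ind_nonneg A n) (h.ind_nonneg B n)

theorem DSeq.us_disj (h : DSeq u) {A B : Set ℕ} (hAB : Disjoint A B) : USm u A ⊓ USm u B = 0 := by
  refine disj_tsum (h.us_nonneg A) (h.ind_nonneg B) (h.summable B) fun n => ?_
  rw [inf_comm]
  refine disj_tsum (h.ind_nonneg B n) (h.ind_nonneg A) (h.summable A) fun m => ?_
  by_cases hn : n ∈ B
  · by_cases hm : m ∈ A
    · rw [Set.indicator_of_mem hn, Set.indicator_of_mem hm]
      refine h.disj n m ?_
      rintro rfl
      exact Set.disjoint_left.1 hAB hm hn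
    · rw [Set.indicator_of_notMem hm]
      exact inf_eq_right.2 (h.ind_nonneg B n)
  · rw [Set.indicator_of_notMem hn]
    exact inf_eq_left.2 (h.ind_nonneg A m)

theorem DSeq.good_of_finite (h : DSeq u) (hg : ∀ n, Good T (u n)) {A : Set ℕ} (hA : A.Finite) :
    Good T (USm u A) := by
  induction A, hA using Set.Finite.induction_on with
  | empty =>
    have h1 : USm u ∅ = 0 := by simp [USm]
    rw [h1]
    exact good_zero
  | @insert a s _ _ ih =>
    have h1 : USm u {a} = u a := by
      unfold USm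
      rw [tsum_eq_single a]
      · simp
      · intro b hb
        exact Set.indicator_of_notMem (by simpa using hb) _
    refine Good.mono ?_ (h.us_union {a} s)
    rw [h1]
    exact (hg a).add (h.nonneg a) (h.us_nonneg s) ih

end

/-- The tails of the sum of a disjoint sequence are good. -/
theorem tail (hT : DB T) {u : ℕ → E} (hu : DSeq u)
    (hB : ∀ N, BaireMeasurableSet {x : ℕ → Bool | Good T (USm (fun n => u (n + N))
      {n | x n = true})}) : ∃ N, Good T (∑' n, u (n + N)) := by
  have hK : ∀ n, ‖u n‖ ≤ ∑' n, ‖u n‖ := fun n => hu.sum.le_tsum n fun i _ => norm_nonneg _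
  have h1 : ∀ᶠ n in atTop, Good T (u n) := by
    by_contra hc
    rw [not_eventually] at hc
    obtain ⟨φ, hφ, hφ'⟩ := extraction_of_frequently_atTop hc
    obtain ⟨i, hi⟩ := exists_good hT (b := fun i => u (φ i)) (fun i => hu.nonneg _)
      (fun i j hij => hu.disj _ _ fun h => hij (hφ.injective h)) (fun i => hK (φ i))
    exact hφ' i hi
  obtain ⟨N, hN⟩ := eventually_atTop.1 h1
  refine ⟨N, ?_⟩
  set w : ℕ → E := fun n => u (n + N) with hw
  have hwD : DSeq w := hu.shift N
  have hwg : ∀ n, Good T (w n) := fun n => hN _ (Nat.le_add_left N n)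
  have huniv : USm w Set.univ = ∑' n, w n := by simp [USm]
  by_contra hbad
  have hbad' : ¬ Good T (USm w Set.univ) := by rwa [huniv]
  obtain ⟨π, hπ, hK'⟩ := Pool.Agent.TH774.KP.exists_partition {A : Set ℕ | Good T (USm w A)}
    (fun A hA B hBA => Good.mono hA (hwD.us_mono hBA))
    (fun A hA B hB' => Good.mono (Good.add (hwD.us_nonneg A) (hwD.us_nonneg B) hA hB')
      (hwD.us_union A B))
    (fun A hA => hwD.good_of_finite hwg hA) hbad' (hB N)
  let κ : ℕ → Set ℕ := fun j => {k | ∃ m : ℕ, k = Nat.pair j m}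
  have hκ : ∀ j, (κ j).Infinite := by
    intro j
    refine Set.infinite_of_injective_forall_mem (f := fun m => Nat.pair j m) ?_ fun m => ⟨m, rfl⟩
    intro a b hab
    exact (Nat.pair_eq_pair.1 hab).2
  let A : ℕ → Set ℕ := fun j => {n | ∃ k ∈ κ j, π k ≤ n ∧ n < π (k + 1)}
  have hA : ∀ i j, i ≠ j → Disjoint (A i) (A j) := by
    intro i j hij
    rw [Set.disjoint_left]
    rintro n ⟨k, ⟨m, rfl⟩, h2, h3⟩ ⟨k', ⟨m', rfl⟩, h4, h5⟩
    have h6 : Nat.pair i m = Nat.pair j m' := by
      rcases lt_trichotomy (Nat.pair i m) (Nat.pair j m') with h | h | h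
      · have := hπ.monotone (show Nat.pair i m + 1 ≤ Nat.pair j m' from h)
        omega
      · exact h
      · have := hπ.monotone (show Nat.pair j m' + 1 ≤ Nat.pair i m from h)
        omega
    exact hij (Nat.pair_eq_pair.1 h6).1
  obtain ⟨i, hi⟩ := exists_good hT (b := fun j => USm w (A j)) (fun j => hwD.us_nonneg _)
    (fun i j hij => hwD.us_disj (hA i j hij)) (K := ‖USm w Set.univ‖) fun j => by
      refine norm_le_norm_of_abs_le_abs ?_
      rw [abs_of_nonneg (hwD.us_nonneg _), abs_of_nonneg (hwD.us_nonneg _)]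
      exact hwD.us_mono (Set.subset_univ _)
  exact hK' (κ i) (hκ i) hi

end Pool.Agent.R546.SP
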